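import Pool.Agent.Q227.AB.Kim3

/-!
# If Chow motives over a finite field form an abelian category then all of them are
finite-dimensional
-/

open CategoryTheory MonoidalCategory Limits

universe v u w

namespace Pool.Agent.Results.MP_6c4da4_ag.AbelianImpliesFiniteDimensional

open Pool.Agent.Q227.AB

/-- Let `C` be a category with the standard formal properties of the category of Chow motives with
rational coefficients over a finite field with `q` elements: a `ℚ`-linear rigid symmetric monoidal
category with `End(𝟙) = ℚ`, with the `ℓ`-adic cohomology groups, the Künneth formula, the Frobenius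
endomorphisms, the Lefschetz trace formula and Deligne's theorem on weights. If `C` is abelian then:

* every object is finite-dimensional in the sense of Kimura: `M = P ⊕ N`, where the exterior power
  of `P` and the symmetric power of `N` in the degrees `b(P) + 1` and `b(N) + 1` vanish;
* numerically trivial endomorphisms `f` of `M` satisfy `f ^ b(M) = 0`. -/
theorem result {C : Type u} [Category.{v} C] [Abelian C] [Linear ℚ C] [MonoidalCategory C]
    [SymmetricCategory C] [RightRigidCategory C] [MonoidalPreadditive C] {K : Type w} [Field K]
    [CharZero K] [IsAlgClosed K] {q : ℕ} (hq : 1 < q) (R : FrobeniusCohomology C K q) :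
    (∀ M : C, ∃ P N : C, Nonempty (M ≅ P ⊞ N) ∧
      ExtZero P (R.betti P + 1) ∧ SymZero N (R.betti N + 1)) ∧
    (∀ (M : C) (f : M ⟶ M), NumTriv f → pw f (R.betti M) = 0) :=
  ⟨fun M => R.kimura hq M, fun _ f hf => R.nilp hq f hf⟩

end Pool.Agent.Results.MP_6c4da4_ag.AbelianImpliesFiniteDimensional
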