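import Pool.Agent.Q219.AL.Ell

/-!
# If Chow motives over a finite field form an abelian category then the standard conjecture of
# Lefschetz type holds, and the Lefschetz theorems hold for Chow groups

Let `C` be a category with the standard formal properties (`FrobeniusCohomology`) of the category of
Chow motives with rational coefficients over a finite field with `q` elements: a `ℚ`-linear rigid
symmetric monoidal category with `End(𝟙) = ℚ`, with the `ℓ`-adic cohomology groups, the Künneth
formula, the Frobenius endomorphisms, the Lefschetz trace formula and Deligne's theorem on weights.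
If `C` is abelian then:

1. A morphism which is injective (surjective, bijective) on all cohomology groups is a
   monomorphism (epimorphism, isomorphism).
2. There are natural projectors `π M i` onto the parts of weight `i` of the motives `M`, and for each
   degree `i` separately: if a morphism `f : M ⟶ N` is bijective on `H^i`, then it is an isomorphism
   from the part of weight `i` of `M` to the part of weight `i` of `N`: the inverse on `H^i` is
   induced by a morphism `N ⟶ M`, which is zero on the other cohomology groups.
3. If `f` is injective (bijective) on `H^0`, then it is injective (bijective) on cycle classes, that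
   is, on the groups `Hom(𝟙, M) → Hom(𝟙, N)`.
4. Let `N j` (for example `h(X)(j)`) satisfy the hard Lefschetz theorem, as all smooth projective
   varieties do (Deligne). Then the inverses of the Lefschetz isomorphisms
   `H^(i + 2 j)(X)(j) → H^(i + 2 k)(X)(k)`, `i + j + k = d`, are induced by morphisms of motives. This is
   Grothendieck's standard conjecture of Lefschetz type, which is open over finite fields; it holds
   here even modulo rational equivalence. Moreover `Hom(𝟙, N j) → Hom(𝟙, N (d - j))`, that is
   `CH^j(X)_ℚ → CH^(d - j)(X)_ℚ`, is bijective for all `j ≤ d / 2`: the hard Lefschetz theorem for Chow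
   groups.
5. Whether a morphism is bijective on `H^i` does not depend on the prime `ℓ`, or on the cohomology
   theory.

For the inclusion of a smooth hyperplane section `Y` in `X` the points 2, 3 and the weak Lefschetz
theorem show that the restriction `CH^j(X)_ℚ → CH^j(Y)_ℚ` is bijective for `2 j < dim Y` and injective
for `2 j = dim Y`.

The proof uses that the Betti numbers are additive in short exact sequences
(`AbelianImpliesWeights`); nothing is known on the exactness of the cohomology functors themselves.
If `M → I → N` is the factorisation of `f` through its image and `f` is injective on cohomology then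
the Betti numbers of `I` are not smaller than those of `M`, and so the kernel has no cohomology, and
is zero.
-/

open CategoryTheory MonoidalCategory Limits

universe v u w

namespace Pool.Agent.Results.MP_6c4da4_ag.AbelianImpliesLefschetz

open Pool.Agent.Q227.AB Pool.Agent.Q219.AL

/-- **Abelian categories of Chow motives over finite fields satisfy the standard conjecture of
Lefschetz type and the hard Lefschetz theorem for Chow groups.** -/
theorem result {C : Type u} [Category.{v} C] [Abelian C] [Linear ℚ C] [MonoidalCategory C]
    [SymmetricCategory C] [RightRigidCategory C] [MonoidalPreadditive C] {K : Type w} [Field K]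
    [CharZero K] [IsAlgClosed K] {q : ℕ} (hq : 1 < q) (R : FrobeniusCohomology C K q) :
    DetectsMorphisms R ∧ DetectsWeights R ∧ DetectsCycles R ∧
    (∀ (N : ℤ ⥤ C) (d : ℤ), HardLefschetz R N d → LefschetzType R N d ∧ CycleLefschetz N d) ∧
    ∀ (K' : Type w) [Field K'] [CharZero K'] [IsAlgClosed K'] (R' : FrobeniusCohomology C K' q),
      R'.Frob = R.Frob → ∀ (M N : C) (f : M ⟶ N) (i : ℤ), BijOn R i f ↔ BijOn R' i f := by
  obtain ⟨π, hπ⟩ := exists_weight R hq
  refine ⟨fun M N f => ⟨mono_of R hq f, epi_of R hq f, iso_of R hq f⟩,
    ⟨π, hπ, fun M N f i h => exists_inverse hq hπ f i h⟩,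
    fun M N f => ⟨hom_injective hq hπ f, hom_bijective hq hπ f⟩,
    fun N d hN => ⟨fun i j k h hd => ?_, fun j k h hd => ?_⟩,
    fun K' _ _ _ R' hR M N f i => ⟨bijective_of hq hR f i, bijective_of hq hR.symm f i⟩⟩
  · obtain ⟨g, h1, h2, h3⟩ := exists_inverse hq hπ _ i (hN i j k h hd)
    refine ⟨g, ?_, ?_, h3⟩
    · rw [← Functor.map_comp, h1, hπ.one]
    · rw [← Functor.map_comp, h2, hπ.one]
  · exact hom_bijective hq hπ _ (hN 0 j k h (by rw [zero_add]; exact hd))

end Pool.Agent.Results.MP_6c4da4_ag.AbelianImpliesLefschetz
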