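import Pool.Agent.Q227.AB.Main3

/-!
# If Chow motives over a finite field form an abelian category then the Chow groups are
finite-dimensional and bounded by the orders of the poles of the zeta function
-/

open CategoryTheory MonoidalCategory Limits

universe v u w

namespace Pool.Agent.Results.MP_6c4da4_ag.AbelianImpliesPoleBound

open Pool.Agent.Q227.AB

/-- Let `C` be a category with the standard formal properties of the category of Chow motives with
rational coefficients over a finite field with `q` elements: a `ℚ`-linear rigid symmetric monoidal
category with `End(𝟙) = ℚ`, with the `ℓ`-adic cohomology groups, the Künneth formula, the Frobenius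
endomorphisms, the Lefschetz trace formula and Deligne's theorem on weights. For `M = h(X)(i)` the
group `Hom(𝟙, M)` is `CH^i(X)_ℚ`, and the multiplicity of the eigenvalue `1` of Frobenius on
`H^0(M)` is the multiplicity of `q ^ i` on `H^{2i}(X)`, that is, the order of the pole of the zeta
function of `X` at `s = i`.

If `C` is abelian then all groups of morphisms are finite-dimensional over `ℚ`, the dimension of
`Hom(𝟙, M)` is at most that multiplicity, and if the multiplicity is equal to the dimension of
`Hom(𝟙, M)` modulo numerical equivalence (the strong Tate conjecture for `M`) then numerically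
trivial elements of `Hom(𝟙, M)` are zero. -/
theorem result {C : Type u} [Category.{v} C] [Abelian C] [Linear ℚ C] [MonoidalCategory C]
    [SymmetricCategory C] [RightRigidCategory C] [MonoidalPreadditive C] {K : Type w} [Field K]
    [CharZero K] [IsAlgClosed K] {q : ℕ} (hq : 1 < q) (R : FrobeniusCohomology C K q) :
    (∀ M N : C, Module.Finite ℚ (M ⟶ N)) ∧
    (∀ M : C, Module.finrank ℚ (𝟙_ C ⟶ M) ≤ mult ((R.H 0).map (R.Frob.app M)).hom 1) ∧
    (∀ M : C, mult ((R.H 0).map (R.Frob.app M)).hom 1 =
      Module.finrank ℚ ((𝟙_ C ⟶ M) ⧸ numZero M) → numZero M = ⊥) :=
  ⟨fun M N => R.finite_hom hq M N, fun M => R.finrank_unit hq M,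
    fun M h => R.numZero_eq_bot hq M h.le⟩

end Pool.Agent.Results.MP_6c4da4_ag.AbelianImpliesPoleBound
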