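import Pool.Agent.Q227.AB.Kim3

/-!
# If Chow motives over a finite field form an abelian category then cohomology detects zero motives,
all of them have finite length, and they decompose naturally according to weights
-/

open CategoryTheory MonoidalCategory Limits

universe v u w

namespace Pool.Agent.Results.MP_6c4da4_ag.AbelianImpliesWeights

open Pool.Agent.Q227.AB

/-- Let `C` be a category with the standard formal properties of the category of Chow motives with
rational coefficients over a finite field with `q` elements: a `ℚ`-linear rigid symmetric monoidal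
category with `End(𝟙) = ℚ`, with the `ℓ`-adic cohomology groups, the Künneth formula, the Frobenius
endomorphisms, the Lefschetz trace formula and Deligne's theorem on weights. If `C` is abelian then:

* an object without cohomology is zero;
* the Betti numbers are additive in short exact sequences, and all chains of subobjects of `M` have
  length at most the sum of the Betti numbers of `M`;
* there is a natural decomposition `M = ⨁ Mᵢ` where `Mᵢ` has cohomology only in degree `i`. -/
theorem result {C : Type u} [Category.{v} C] [Abelian C] [Linear ℚ C] [MonoidalCategory C]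
    [SymmetricCategory C] [RightRigidCategory C] [MonoidalPreadditive C] {K : Type w} [Field K]
    [CharZero K] [IsAlgClosed K] {q : ℕ} (hq : 1 < q) (R : FrobeniusCohomology C K q) :
    (∀ M : C, (∀ i, Subsingleton ((R.H i).obj M)) → IsZero M) ∧
    (∀ S : ShortComplex C, S.ShortExact → ∀ i : ℤ, Module.finrank K ((R.H i).obj S.X₂) =
      Module.finrank K ((R.H i).obj S.X₁) + Module.finrank K ((R.H i).obj S.X₃)) ∧
    (∀ (M : C) (n : ℕ) (s : Fin (n + 1) → Subobject M), StrictMono s → n ≤ R.betti M) ∧
    (∃ π : ∀ M : C, ℤ → (M ⟶ M),
      (∀ (M N : C) (f : M ⟶ N) (i : ℤ), π M i ≫ f = f ≫ π N i) ∧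
      (∀ (M : C) (i : ℤ), π M i ≫ π M i = π M i) ∧
      (∀ (M : C) (i j : ℤ), i ≠ j → π M i ≫ π M j = 0) ∧
      (∀ M : C, {i : ℤ | π M i ≠ 0}.Finite ∧ ∑ᶠ i : ℤ, π M i = 𝟙 M) ∧
      (∀ (M : C) (i : ℤ), (R.H i).map (π M i) = 𝟙 ((R.H i).obj M)) ∧
      (∀ (M : C) (i j : ℤ), i ≠ j → (R.H j).map (π M i) = 0)) :=
  ⟨fun _ h => R.isZero_of_subsingleton hq h, fun _ hS i => R.finrank_exact hq hS i,
    fun M n s hs => R.chain_le hq M n s hs, R.weight_decomposition hq⟩

end Pool.Agent.Results.MP_6c4da4_ag.AbelianImpliesWeights
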